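import Mathlib
import Pool.Agent.H8.Tuk

set_option autoImplicit false

namespace Pool.Agent.Results.MP_8fdcc7_lc.CH

open Set Filter

/-- `(U, r) ≤_T (U, s)`, where `r A B` reads: `B` is above `A`.: some map `U → U` sends every
`r`-unbounded subset of `U` to an `s`-unbounded subset of `U`. -/
def TukeyLE (U : Ultrafilter ℕ) (r s : Set ℕ → Set ℕ → Prop) : Prop :=
  ∃ f : Set ℕ → Set ℕ, (∀ A ∈ U, f A ∈ U) ∧ ∀ 𝒜 : Set (Set ℕ), (∀ A ∈ 𝒜, A ∈ U) →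
    (¬ ∃ B ∈ U, ∀ A ∈ 𝒜, r A B) → ¬ ∃ B ∈ U, ∀ A ∈ 𝒜, s (f A) B

theorem result (h : Cardinal.continuum.{0} = Cardinal.aleph 1) : ∃ U : Ultrafilter ℕ,
    (∀ n : ℕ, {n} ∉ U) ∧
    ¬ (∀ 𝒜 : Set (Set ℕ), 𝒜.Countable → (∀ A ∈ 𝒜, A ∈ U) → ∃ B ∈ U, ∀ A ∈ 𝒜, (B \ A).Finite) ∧
    TukeyLE U (fun A B => (B \ A).Finite) (fun A B => B ⊆ A) ∧
    ¬ TukeyLE U (fun A B => B ⊆ A) (fun A B => (B \ A).Finite) := by
  obtain ⟨U, h1, h2, h3⟩ := Pool.Agent.H8.Tuk.main h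
  refine ⟨U, fun n hn => Ultrafilter.compl_notMem_iff.2 hn
    (h1 (finite_singleton n).compl_mem_cofinite), fun hp => h2 fun A hA => ?_,
    ⟨id, fun _ h => h, fun 𝒜 _ h4 ⟨B, hB, h5⟩ => h4 ⟨B, hB, fun A hA => ?_⟩⟩,
    fun ⟨f, hf, h4⟩ => ?_⟩
  · obtain ⟨B, hB, h4⟩ := hp (range A) (countable_range A) (by rintro _ ⟨n, rfl⟩; exact hA n)
    exact ⟨B, hB, fun n => h4 _ ⟨n, rfl⟩⟩
  · exact finite_empty.subset fun x hx => hx.2 (h5 A hA hx.1)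
  · obtain ⟨𝒜, h5, h6, h7⟩ := h3 f hf
    exact h4 𝒜 h5 h6 h7

end Pool.Agent.Results.MP_8fdcc7_lc.CH
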